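import Pool.Agent.Lib.MP_10e961_gt_own.Main

/-!
# MP_10e961_gt: `κ`-scatteredness is determined by `C_p C_p (X)`

Arhangel'skii's question (1989): if `X` is `κ`-scattered and `C_p C_p (X)` is homeomorphic to
`C_p C_p (Y)`, must `Y` be `κ`-scattered?  Yes, for every cardinal `κ`; for infinite cardinals it is
enough that `C_p C_p (Y)` is homeomorphic to a retract of `C_p C_p (X)`, and the bound for the size
of the closures may be a second cardinal `μ`.
-/

set_option autoImplicit false

open Cardinal

namespace Pool.Agent.Results.MP_10e961_gt.KappaScattered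

universe u

/-- `C_p(Z)`: the continuous maps from `Z` to the real line with the topology of pointwise
convergence, i.e. the subspace topology of the product `Z → ℝ`. -/
abbrev Cp (Z : Type u) [TopologicalSpace Z] : Type u := {f : Z → ℝ // Continuous f}

/-- Every subset of `X` of size at most `κ` has closure of size at most `μ`. -/
def SmallClosures (κ μ : Cardinal.{u}) (X : Type u) [TopologicalSpace X] : Prop :=
  ∀ A : Set X, #A ≤ κ → #(closure A) ≤ μ

/-- `X` is `κ`-scattered: every subset of `X` of size at most `κ` has closure of size at most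
`κ`. -/
def KScattered (κ : Cardinal.{u}) (X : Type u) [TopologicalSpace X] : Prop := SmallClosures κ κ X

/-- `P` is homeomorphic to a retract of `Q`. -/
def IsRetractOf (P Q : Type u) [TopologicalSpace P] [TopologicalSpace Q] : Prop :=
  ∃ (r : Q → P) (i : P → Q), Continuous r ∧ Continuous i ∧ ∀ v, r (i v) = v

theorem result :
    (∀ (κ : Cardinal.{u}) (X Y : Type u) [TopologicalSpace X] [T35Space X] [TopologicalSpace Y]
      [T35Space Y], KScattered κ X → Nonempty (Cp (Cp X) ≃ₜ Cp (Cp Y)) → KScattered κ Y) ∧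
    ∀ (κ μ : Cardinal.{u}), ℵ₀ ≤ κ → ℵ₀ ≤ μ → ∀ (X Y : Type u) [TopologicalSpace X] [T35Space X]
      [TopologicalSpace Y] [T35Space Y], SmallClosures κ μ X → IsRetractOf (Cp (Cp Y)) (Cp (Cp X)) →
        SmallClosures κ μ Y := by
  have main : ∀ (κ μ : Cardinal.{u}), ℵ₀ ≤ κ → ℵ₀ ≤ μ → ∀ (X Y : Type u) [TopologicalSpace X]
      [T35Space X] [TopologicalSpace Y] [T35Space Y], SmallClosures κ μ X →
        IsRetractOf (Cp (Cp Y)) (Cp (Cp X)) → SmallClosures κ μ Y := by
    intro κ μ hκ hμ X Y _ _ _ _ hX hr A hA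
    obtain ⟨r, i, hr1, hi, hri⟩ := hr
    exact Pool.Agent.MP_10e961_gt_own.main hκ hμ hX r i hr1 hi hri A hA
  refine ⟨?_, main⟩
  intro κ X Y _ _ _ _ hX h
  rcases le_or_gt ℵ₀ κ with hκ | hκ
  · obtain ⟨h⟩ := h
    exact main κ κ hκ hκ X Y hX ⟨h, h.symm, h.continuous, h.symm.continuous, h.apply_symm_apply⟩
  · intro A hA
    have hfin : A.Finite := Cardinal.lt_aleph0_iff_set_finite.1 (hA.trans_lt hκ)
    rw [hfin.isClosed.closure_eq]
    exact hA

end Pool.Agent.Results.MP_10e961_gt.KappaScattered
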